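import Pool.Agent.U798.BV.Spec

/-!
# Project BV, package CONV: convolution with finitely many points of the circle
-/

set_option autoImplicit false

open MeasureTheory Filter Topology
open scoped ENNReal

namespace Pool.Agent.U141.BV

open Pool.Agent.U798.BV

/-- the translate of `μ` by `a` -/
noncomputable def tr (μ : Measure (AddCircle (1 : ℝ))) (a : AddCircle (1 : ℝ)) :
    Measure (AddCircle (1 : ℝ)) := μ.map (fun x => x + a)

lemma meas_tr (a : AddCircle (1 : ℝ)) : Measurable (fun x : AddCircle (1 : ℝ) => x + a) :=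
  (continuous_id.add continuous_const).measurable

lemma tr_prob (μ : Measure (AddCircle (1 : ℝ))) [IsProbabilityMeasure μ] (a : AddCircle (1 : ℝ)) :
    IsProbabilityMeasure (tr μ a) :=
  Measure.isProbabilityMeasure_map (meas_tr a).aemeasurable

lemma tr_atom (μ : Measure (AddCircle (1 : ℝ))) (h : ∀ x, μ {x} = 0) (a x : AddCircle (1 : ℝ)) :
    tr μ a {x} = 0 := by
  rw [tr, Measure.map_apply (meas_tr a) (measurableSet_singleton x)]
  have : (fun y : AddCircle (1 : ℝ) => y + a) ⁻¹' {x} = {x - a} := by
    ext y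
    simp only [Set.mem_preimage, Set.mem_singleton_iff]
    exact eq_sub_iff_add_eq.symm
  rw [this]
  exact h _

lemma fourier_tr (k : ℤ) (x a : AddCircle (1 : ℝ)) :
    fourier k (x + a) = fourier k a * fourier k x := by
  rw [fourier_apply, fourier_apply, fourier_apply, smul_add, AddCircle.toCircle_add, Circle.coe_mul,
    mul_comm]

lemma fourier_e1 (k : ℤ) (a : ℝ) : fourier k (a : AddCircle (1 : ℝ)) = e1 (k * a) := by
  rw [fourier_coe_apply, e1]
  congr 1
  push_cast
  ring

lemma fourier_integrable (k : ℤ) (μ : Measure (AddCircle (1 : ℝ))) [IsProbabilityMeasure μ] :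
    Integrable (fun x => fourier k x) μ := by
  refine (integrable_const (1 : ℝ)).mono' (map_continuous (fourier k)).aestronglyMeasurable ?_
  refine Eventually.of_forall fun x => ?_
  rw [fourier_apply, Circle.norm_coe]

theorem t_CONV : Pool.Agent.U798.BV.S_CONV := by
  intro n r hn μ hμ hat
  have hn0 : (n : ℝ≥0∞) ≠ 0 := by exact_mod_cast hn.ne'
  have hnt : (n : ℝ≥0∞) ≠ ∞ := ENNReal.natCast_ne_top n
  haveI hpr : ∀ i, IsProbabilityMeasure (tr μ (r i : AddCircle (1 : ℝ))) := fun i => tr_prob μ _
  refine ⟨(n : ℝ≥0∞)⁻¹ • ∑ i, tr μ (r i : AddCircle (1 : ℝ)), ⟨?_⟩, ?_, ?_, ?_⟩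
  · rw [Measure.smul_apply, Measure.finsetSum_apply]
    simp only [measure_univ, Finset.sum_const, Finset.card_univ, Fintype.card_fin, nsmul_eq_mul,
      mul_one, smul_eq_mul]
    exact ENNReal.inv_mul_cancel hn0 hnt
  · intro x
    rw [Measure.smul_apply, Measure.finsetSum_apply]
    simp only [tr_atom μ hat, Finset.sum_const_zero, smul_zero]
  · intro k
    rw [integral_smul_measure, integral_finsetSum_measure fun i _ => fourier_integrable k _]
    have h1 : ∀ i, ∫ x, fourier k x ∂(tr μ (r i : AddCircle (1 : ℝ))) =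
        e1 (k * r i) * ∫ x, fourier k x ∂μ := by
      intro i
      rw [tr, integral_map (meas_tr _).aemeasurable
        (map_continuous (fourier k)).aestronglyMeasurable]
      simp_rw [fourier_tr, fourier_e1]
      rw [integral_const_mul]
    simp_rw [h1]
    rw [← Finset.sum_mul, ENNReal.toReal_inv, ENNReal.toReal_natCast, Complex.real_smul]
    push_cast
    ring
  · rintro p hp ⟨σ, hσ⟩
    have hm : Measurable (fun x : AddCircle (1 : ℝ) => p • x) := hp.measurable
    refine ⟨hm, ?_⟩
    have hr : ∀ i, p • (r i : AddCircle (1 : ℝ)) = (r (σ i) : AddCircle (1 : ℝ)) := by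
      intro i
      obtain ⟨m, hm'⟩ := hσ i
      have h1 : p • (r i : AddCircle (1 : ℝ)) = (((p : ℝ) * r i : ℝ) : AddCircle (1 : ℝ)) := by
        rw [← nsmul_eq_mul, AddCircle.coe_nsmul]
      rw [h1, hm', AddCircle.coe_add]
      have h2 : ((m : ℝ) : AddCircle (1 : ℝ)) = 0 := by
        rw [AddCircle.coe_eq_zero_iff]
        exact ⟨m, by simp⟩
      rw [h2, add_zero]
    have ht : ∀ i, (tr μ (r i : AddCircle (1 : ℝ))).map (fun x => p • x) =
        tr μ (r (σ i) : AddCircle (1 : ℝ)) := by
      intro i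
      rw [tr, tr, Measure.map_map hm (meas_tr _)]
      conv_rhs => rw [← hp.map_eq]
      rw [Measure.map_map (meas_tr _) hm]
      congr 1
      funext x
      simp only [Function.comp]
      rw [smul_add, hr]
    ext s hs
    rw [Measure.map_apply hm hs, Measure.smul_apply, Measure.finsetSum_apply, Measure.smul_apply,
      Measure.finsetSum_apply]
    congr 1
    have h3 : ∀ i, tr μ (r i : AddCircle (1 : ℝ)) ((fun x => p • x) ⁻¹' s) =
        tr μ (r (σ i) : AddCircle (1 : ℝ)) s := by
      intro i
      rw [← ht i, Measure.map_apply hm hs]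
    simp_rw [h3]
    exact Equiv.sum_comp σ fun i => tr μ (r i : AddCircle (1 : ℝ)) s

end Pool.Agent.U141.BV
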